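import Pool.Agent.helper11.VN.Spec3b
import Pool.Agent.helper53.VQ.POT
import Pool.Agent.helper76.VQ.NCV
import Pool.Agent.helper18.VQ.VLP
import Pool.Agent.helper40.VQ.VCD

/-!
# MP_07c750 (QUE), project VN, block 3, row PON (potentials of negatively curved metrics)
-/

set_option autoImplicit false

open scoped MatrixGroups ContDiff Topology UpperHalfPlane ComplexConjugate ENNReal
open UpperHalfPlane MeasureTheory Filter Set

namespace Pool.Agent.VN

open Pool.Agent.RS Pool.Agent.VQ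
open Pool.Agent.RPQ (CkB)

noncomputable section

theorem PON_cdi0 : (cdi 0 : ℍ) = I := by
  unfold cdi
  have h1 : Complex.I * (2 + 0) / (2 - 0) = ((I : ℍ) : ℂ) := by
    show _ = Complex.I
    norm_num
  rw [h1, ofComplex_apply]

theorem PON_cx (f : ℂ → ℝ) (w : ℂ) (hf : ContDiffAt ℝ 2 f w) (a c : ℂ) :
    fderiv ℝ (fderiv ℝ (fun w => ((f w : ℝ) : ℂ))) w a c =
      ((fderiv ℝ (fderiv ℝ f) w a c : ℝ) : ℂ) := by
  have hev : ∀ᶠ q in 𝓝 w, ContDiffAt ℝ 2 f q := hf.eventually (by simp)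
  have h1 : (fderiv ℝ (fun w => ((f w : ℝ) : ℂ))) =ᶠ[𝓝 w]
      fun q => Complex.ofRealCLM.comp (fderiv ℝ f q) := by
    filter_upwards [hev] with q hq
    have h2 : HasFDerivAt f (fderiv ℝ f q) q := (hq.differentiableAt (by norm_num)).hasFDerivAt
    exact (Complex.ofRealCLM.hasFDerivAt.comp q h2).fderiv
  have hd1 : ContDiffAt ℝ 1 (fderiv ℝ f) w := hf.fderiv_right (m := 1) (by norm_num)
  have h5 : HasFDerivAt (fderiv ℝ f) (fderiv ℝ (fderiv ℝ f) w) w :=
    (hd1.differentiableAt (by norm_num)).hasFDerivAt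
  have h6 : HasFDerivAt (fun q => Complex.ofRealCLM.comp (fderiv ℝ f q))
      ((ContinuousLinearMap.compL ℝ ℂ ℝ ℂ Complex.ofRealCLM).comp (fderiv ℝ (fderiv ℝ f) w)) w :=
    (ContinuousLinearMap.compL ℝ ℂ ℝ ℂ Complex.ofRealCLM).hasFDerivAt.comp w h5
  rw [h1.fderiv_eq, h6.fderiv]
  rfl

theorem PON_cd2 {G : ℍ → ℝ} (hG : QU.CD ∞ G) : QU.CD 2 G :=
  hG.of_le (WithTop.coe_le_coe.2 le_top)

theorem PON_at {G : ℍ → ℝ} (hG : QU.CD ∞ G) (z : ℍ) : ContDiffAt ℝ 2 (QU.onC G) (z : ℂ) :=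
  (PON_cd2 hG).contDiffAt ((isOpen_lt continuous_const Complex.continuous_im).mem_nhds z.im_pos)

theorem PON_V {G : ℍ → ℝ} (hG : QU.CD ∞ G) (g : SL(2, ℝ)) : ContDiffAt ℝ ∞ (Ug G g) 0 :=
  (POT_cd G hG g).contDiffAt (Metric.isOpen_ball.mem_nhds (by simp))

/-- the Laplace operator in the frame `g` -/
theorem PON_lap {G : ℍ → ℝ} (hG : QU.CD ∞ G) (g : SL(2, ℝ)) :
    QU.lap G (g • I) = -(fderiv ℝ (fderiv ℝ (Ug G g)) 0 1 1 +
      fderiv ℝ (fderiv ℝ (Ug G g)) 0 Complex.I Complex.I) := by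
  have hc : QU.CD 2 (fun z => ((G z : ℝ) : ℂ)) := by
    have h1 : ContDiffOn ℝ 2 (QU.onC G) {w : ℂ | 0 < w.im} := PON_cd2 hG
    exact Complex.ofRealCLM.contDiff.comp_contDiffOn h1
  have h1 := ((VLP_proof VCD_proof).1 (fun z => ((G z : ℝ) : ℂ)) g 0 hc (by simp)).2
  rw [PON_cdi0] at h1
  have h2 : QU.lap (fun z => ((G z : ℝ) : ℂ)) (g • I) = ((QU.lap G (g • I) : ℝ) : ℂ) := by
    unfold QU.lap
    have h3 := PON_cx (QU.onC G) ((g • I : ℍ) : ℂ) (PON_at hG (g • I))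
    have h4 : QU.onC (fun z => ((G z : ℝ) : ℂ)) = fun w => ((QU.onC G w : ℝ) : ℂ) := rfl
    rw [h4, h3, h3]
    simp only [Complex.real_smul, smul_eq_mul]
    push_cast
    ring
  have h3 := PON_cx (Ug G g) 0 ((PON_V hG g).of_le (WithTop.coe_le_coe.2 le_top))
  have h4 : (fun w : ℂ => ((G (g • cdi w) : ℝ) : ℂ)) = fun w => ((Ug G g w : ℝ) : ℂ) := rfl
  rw [h2, h4, h3, h3] at h1
  have h5 : (((1 - ‖(0 : ℂ)‖ ^ 2 / 4) ^ 2 : ℝ) : ℂ) = 1 := by
    norm_num
  rw [h5] at h1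
  exact_mod_cast (by rw [h1]; push_cast; ring :
    ((QU.lap G (g • I) : ℝ) : ℂ) = ((-(fderiv ℝ (fderiv ℝ (Ug G g)) 0 1 1 +
      fderiv ℝ (fderiv ℝ (Ug G g)) 0 Complex.I Complex.I) : ℝ) : ℂ))

/-- derivatives of the exponential of a function -/
theorem PON_exp {V : ℂ → ℝ} (hV : ContDiffAt ℝ 2 V 0) (a c : ℂ) :
    fderiv ℝ (fun w => Real.exp (V w)) 0 a = Real.exp (V 0) * fderiv ℝ V 0 a ∧
    fderiv ℝ (fderiv ℝ (fun w => Real.exp (V w))) 0 a c =
      Real.exp (V 0) * (fderiv ℝ (fderiv ℝ V) 0 a c + fderiv ℝ V 0 a * fderiv ℝ V 0 c) := by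
  have hev : ∀ᶠ q in 𝓝 (0 : ℂ), ContDiffAt ℝ 2 V q := hV.eventually (by simp)
  have h0 : ∀ q, ContDiffAt ℝ 2 V q →
      HasFDerivAt (fun w => Real.exp (V w)) (Real.exp (V q) • fderiv ℝ V q) q := by
    intro q hq
    exact (hq.differentiableAt (by norm_num)).hasFDerivAt.exp
  have h1 : (fderiv ℝ (fun w => Real.exp (V w))) =ᶠ[𝓝 0]
      fun q => Real.exp (V q) • fderiv ℝ V q := by
    filter_upwards [hev] with q hq
    exact (h0 q hq).fderiv
  have hd1 : ContDiffAt ℝ 1 (fderiv ℝ V) 0 := hV.fderiv_right (m := 1) (by norm_num)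
  have h5 : HasFDerivAt (fderiv ℝ V) (fderiv ℝ (fderiv ℝ V) 0) 0 :=
    (hd1.differentiableAt (by norm_num)).hasFDerivAt
  have h6 : HasFDerivAt (fun q => Real.exp (V q) • fderiv ℝ V q)
      (Real.exp (V 0) • fderiv ℝ (fderiv ℝ V) 0 +
        (Real.exp (V 0) • fderiv ℝ V 0).smulRight (fderiv ℝ V 0)) 0 := (h0 0 hV).smul h5
  refine ⟨?_, ?_⟩
  · rw [(h0 0 hV).fderiv]
    rfl
  · rw [h1.fderiv_eq, h6.fderiv]
    simp only [add_apply, smul_apply, ContinuousLinearMap.smulRight_apply, smul_eq_mul]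
    ring

/-- the Laplace operator of an invariant function is invariant and continuous -/
theorem PON_inv {Γ : Subgroup SL(2, ℝ)} {G : ℍ → ℝ} (hG : QU.CD ∞ G) (hi : QU.Inv Γ G) (γ : Γ)
    (z : ℍ) : QU.lap G (γ • z) = QU.lap G z := by
  have hz : z.toSL2R • (I : ℍ) = z := toSL2R_smul_I z
  have h1 : (γ • z : ℍ) = ((γ : SL(2, ℝ)) * z.toSL2R) • (I : ℍ) := by
    rw [mul_smul, hz]
    rfl
  have h2 : Ug G ((γ : SL(2, ℝ)) * z.toSL2R) = Ug G z.toSL2R := by
    funext v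
    show G (((γ : SL(2, ℝ)) * z.toSL2R) • cdi v) = G (z.toSL2R • cdi v)
    rw [mul_smul]
    exact hi.2 γ (z.toSL2R • cdi v)
  rw [h1, PON_lap hG, h2, ← PON_lap hG, hz]

theorem PON_cont {G : ℍ → ℝ} (hG : QU.CD ∞ G) : Continuous (QU.lap G) := by
  have hS : IsOpen {w : ℂ | 0 < w.im} := isOpen_lt continuous_const Complex.continuous_im
  have h2 : ContDiffOn ℝ (1 + 1) (QU.onC G) {w : ℂ | 0 < w.im} := by
    have h6 : (1 + 1 : WithTop ℕ∞) = 2 := by norm_num
    rw [h6]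
    exact PON_cd2 hG
  have h3 : ContDiffOn ℝ (0 + 1) (fderiv ℝ (QU.onC G)) {w : ℂ | 0 < w.im} := by
    have h6 : (0 + 1 : WithTop ℕ∞) = 1 := by norm_num
    rw [h6]
    exact ((contDiffOn_succ_iff_fderiv_of_isOpen hS).1 h2).2.2
  have h4 : ContinuousOn (fderiv ℝ (fderiv ℝ (QU.onC G))) {w : ℂ | 0 < w.im} :=
    contDiffOn_zero.1 ((contDiffOn_succ_iff_fderiv_of_isOpen hS).1 h3).2.2
  have h5 : Continuous fun z : ℍ => fderiv ℝ (fderiv ℝ (QU.onC G)) (z : ℂ) :=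
    h4.comp_continuous UpperHalfPlane.continuous_coe fun z => z.im_pos
  unfold QU.lap
  refine Continuous.smul (UpperHalfPlane.continuous_im.pow 2).neg ?_
  exact ((h5.clm_apply continuous_const).clm_apply continuous_const).add
    ((h5.clm_apply continuous_const).clm_apply continuous_const)

theorem PON_cpt {Γ : Subgroup SL(2, ℝ)} {G : ℍ → ℝ} (hΓ : QU.SurfaceGroup Γ) (hG : QU.CD ∞ G)
    (hi : QU.Inv Γ G) (hl : ∀ z, QU.lap G z < 2) : ∃ c : ℝ, 0 < c ∧ ∀ z, QU.lap G z ≤ 2 - 4 * c := by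
  obtain ⟨K, hK, hcov⟩ := hΓ.cocompact
  have hne : K.Nonempty := by
    obtain ⟨γ, hγ⟩ := hcov I
    exact ⟨_, hγ⟩
  obtain ⟨z0, -, hz0⟩ := hK.exists_isMaxOn hne (PON_cont hG).continuousOn
  refine ⟨(2 - QU.lap G z0) / 4, by linarith [hl z0], fun z => ?_⟩
  obtain ⟨γ, hγ⟩ := hcov z
  have h1 : QU.lap G (γ • z) ≤ QU.lap G z0 := hz0 hγ
  rw [PON_inv hG hi] at h1
  linarith

theorem PON_sub {G G' : ℍ → ℝ} (hG : QU.CD ∞ G) (hG' : QU.CD ∞ G') {s : ℝ}
    (h : CkB 2 (fun z => G z - G' z) s) (z : ℍ) : QU.lap G' z ≤ QU.lap G z + 2 * s := by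
  have hS : QU.CD ∞ (fun z => G z - G' z) := ContDiffOn.sub hG hG'
  have h1 := NCV_proof (fun z => G z - G' z) s hS h z
  have hz : z.toSL2R • (I : ℍ) = z := toSL2R_smul_I z
  have h2 : QU.lap (fun z => G z - G' z) z = QU.lap G z - QU.lap G' z := by
    rw [← hz, PON_lap hS, PON_lap hG, PON_lap hG']
    set A : ℂ → ℝ := Ug G z.toSL2R with hA
    set A' : ℂ → ℝ := Ug G' z.toSL2R with hA'
    have cA : ContDiffAt ℝ 2 A 0 := (PON_V hG _).of_le (WithTop.coe_le_coe.2 le_top)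
    have cA' : ContDiffAt ℝ 2 A' 0 := (PON_V hG' _).of_le (WithTop.coe_le_coe.2 le_top)
    have e0 : Ug (fun z => G z - G' z) z.toSL2R = fun w => A w - A' w := rfl
    have e1 : fderiv ℝ (fun w => A w - A' w) =ᶠ[𝓝 0] fun w => fderiv ℝ A w - fderiv ℝ A' w := by
      filter_upwards [cA.eventually (by simp), cA'.eventually (by simp)] with q hq hq'
      exact fderiv_fun_sub (hq.differentiableAt (by norm_num)) (hq'.differentiableAt (by norm_num))
    have dA : DifferentiableAt ℝ (fderiv ℝ A) 0 :=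
      (cA.fderiv_right (m := 1) (by norm_num)).differentiableAt (by norm_num)
    have dA' : DifferentiableAt ℝ (fderiv ℝ A') 0 :=
      (cA'.fderiv_right (m := 1) (by norm_num)).differentiableAt (by norm_num)
    rw [e0, e1.fderiv_eq, fderiv_fun_sub dA dA']
    simp only [sub_apply]
    ring
  rw [h2] at h1
  have h3 := (abs_le.1 h1).1
  linarith

/-- numbers -/
theorem PON_num {u E L N c eb k L0 N0 : ℝ} (hu : 0 < u) (hu1 : u ≤ eb) (hu2 : 1 ≤ u * eb)
    (hL : c ≤ 1 + L / 2) (hL0 : |L| ≤ L0) (hN : 0 ≤ N) (hN0 : N ≤ N0) (hk : 0 < k)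
    (hE : |E| ≤ k) (h1 : 4 * k * eb ≤ 1) (h2 : 4 * k * eb ≤ c)
    (h3 : 4 * k * eb * (L0 + 2 * N0 + 1) ≤ c) :
    0 ≤ u + 2 * E ∧ -(1 + u * (L + N) / (2 * (u + 2 * E)) - u ^ 2 * N / (2 * (u + 2 * E) ^ 2)) /
      (u + 2 * E) ≤ -k := by
  have heb : 0 < eb := hu.trans_le hu1
  have hku : 4 * k ≤ u := by
    by_contra h
    rw [not_le] at h
    have := mul_lt_mul_of_pos_right h heb
    linarith
  have hE' := abs_le.1 hE
  set r := u + 2 * E with hr
  have hr1 : u / 2 ≤ r := by linarith [hE'.1]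
  have hr2 : r ≤ 2 * u := by linarith [hE'.2]
  have hr0 : 0 < r := by linarith
  set t := u / r with ht
  have ht0 : 0 < t := div_pos hu hr0
  have ht2 : t ≤ 2 := by
    rw [ht, div_le_iff₀ hr0]
    linarith
  have htr : t * r = u := by
    rw [ht]
    field_simp
  set D := 4 * k * eb with hD
  have hD0 : 0 < D := by positivity
  have hd : |t - 1| ≤ D := by
    have e1 : t - 1 = -(2 * E) / r := by
      rw [ht, div_sub_one hr0.ne']
      congr 1
      rw [hr]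
      ring
    rw [e1, abs_div, abs_neg, abs_mul, abs_of_pos hr0, div_le_iff₀ hr0, abs_two]
    have e2 : D * (u / 2) ≤ D * r := mul_le_mul_of_nonneg_left hr1 hD0.le
    have e3 : 2 * k ≤ D * (u / 2) := by
      have e4 : 2 * k * 1 ≤ 2 * k * (u * eb) := mul_le_mul_of_nonneg_left hu2 (by linarith)
      have e5 : D * (u / 2) = 2 * k * (u * eb) := by
        rw [hD]
        ring
      rw [e5]
      linarith
    linarith
  have hX : c / 2 ≤ 1 + t * (L + N) / 2 - t ^ 2 * N / 2 := by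
    have e1 : 1 + t * (L + N) / 2 - t ^ 2 * N / 2 =
        (1 + L / 2) + (t - 1) * L / 2 - t * (t - 1) * N / 2 := by ring
    have e2 : |(t - 1) * L| ≤ D * L0 := by
      rw [abs_mul]
      exact mul_le_mul hd hL0 (abs_nonneg _) hD0.le
    have e3 : |t * (t - 1) * N| ≤ 2 * D * N0 := by
      rw [abs_mul, abs_mul, abs_of_pos ht0, abs_of_nonneg hN]
      exact mul_le_mul (mul_le_mul ht2 hd (abs_nonneg _) (by norm_num)) hN0 hN (by positivity)
    have e4 := (abs_le.1 e2).1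
    have e5 := (abs_le.1 e3).2
    have e6 : D * (L0 + 2 * N0 + 1) = D * L0 + 2 * D * N0 + D := by ring
    rw [e6] at h3
    rw [e1]
    linarith
  refine ⟨hr0.le, ?_⟩
  have e1 : 1 + u * (L + N) / (2 * r) - u ^ 2 * N / (2 * r ^ 2) =
      1 + t * (L + N) / 2 - t ^ 2 * N / 2 := by
    rw [← htr]
    field_simp
  rw [e1, neg_div, neg_le_neg_iff, le_div_iff₀ hr0]
  have e2 : k * r ≤ k * (2 * eb) := mul_le_mul_of_nonneg_left (by linarith) hk.le
  have e3 : k * (2 * eb) = D / 2 := by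
    rw [hD]
    ring
  linarith

theorem PON_proof : PON_stmt := by
  intro b
  obtain ⟨M, hM⟩ := POT_M
  set Dn : ℕ → ℝ := fun n => 1 + ∑ i ∈ Finset.range (n + 1), 3 * M i with hDn
  have hDn1 : ∀ n, 1 ≤ Dn n := by
    intro n
    have : 0 ≤ ∑ i ∈ Finset.range (n + 1), 3 * M i := Finset.sum_nonneg fun i _ => mul_nonneg (by norm_num) (hM i).1
    show 1 ≤ 1 + _
    linarith
  set A : ℕ → ℝ := fun n => n.factorial * (∑ j ∈ Finset.range (n + 1), |b j|) * Dn n ^ n with hA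
  have hA0 : ∀ n, 0 ≤ A n := fun n => by
    have h1 : 0 ≤ ∑ j ∈ Finset.range (n + 1), |b j| := Finset.sum_nonneg fun j _ => abs_nonneg _
    have h2 : 0 ≤ Dn n ^ n := pow_nonneg (by linarith [hDn1 n]) _
    show 0 ≤ n.factorial * (∑ j ∈ Finset.range (n + 1), |b j|) * Dn n ^ n
    positivity
  set eb : ℝ := Real.exp (b 0) with heb
  have heb0 : 0 < eb := Real.exp_pos _
  set B : ℕ → ℝ := fun n => n.factorial * eb * (1 + ∑ i ∈ Finset.range (n + 1), A i) ^ n with hB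
  refine ⟨B, fun Γ G hΓ hG hi hb hl => ?_⟩
  obtain ⟨c, hc, hlc⟩ := PON_cpt hΓ hG hi hl
  set L0 : ℝ := 2 * A 2 with hL0
  set N0 : ℝ := 2 * A 1 ^ 2 with hN0
  have hL00 : 0 ≤ L0 := by
    have := hA0 2
    positivity
  have hN00 : 0 ≤ N0 := by positivity
  obtain ⟨q, hq⟩ := exists_nat_ge (1 + eb + eb / c + eb * (L0 + 2 * N0 + 1) / c + (|B 0| + |B 1| + |B 2| + |B 3|))
  have p1 : 0 ≤ eb / c := by positivity
  have p2 : 0 ≤ eb * (L0 + 2 * N0 + 1) / c := by positivity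
  have p3 : 0 ≤ |B 0| + |B 1| + |B 2| + |B 3| := by positivity
  have hq1 : 1 ≤ (q : ℝ) := by linarith
  have hq0 : 0 < (q : ℝ) := by linarith
  refine ⟨q, c, by exact_mod_cast hq1, hc, fun G' hG' hi' hb' hs => ?_⟩
  have hk : (0 : ℝ) < 1 / (16 * q) := by positivity
  have hk4 : 4 * (1 / (16 * (q : ℝ))) = 1 / (4 * q) := by
    field_simp
    norm_num
  -- bounds for the exponent
  have hKn : ∀ (g : SL(2, ℝ)) (v : ℂ), ‖v‖ ≤ 1 → ∀ n, ‖iteratedFDeriv ℝ n (fun w => G' (g • cdi w)) v‖ ≤ A n := by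
    intro g v hv n
    refine POT_K hM G' hG' n (∑ j ∈ Finset.range (n + 1), |b j|) (fun i hi g' => (hb' i g').trans ?_) g hv
    exact (le_abs_self _).trans (Finset.single_le_sum (f := fun j => |b j|) (fun j _ => abs_nonneg _) (Finset.mem_range.2 (by omega)))
  have hG0 : ∀ z : ℍ, |G' z| ≤ b 0 := by
    intro z
    have h1 := hb' 0 z.toSL2R
    rw [norm_iteratedFDeriv_zero, Real.norm_eq_abs] at h1
    have h2 : QU.onC (fun w : ℍ => G' (z.toSL2R • w)) ((I : ℍ) : ℂ) = G' z := by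
      unfold QU.onC
      rw [ofComplex_apply]
      show G' (z.toSL2R • (I : ℍ)) = G' z
      rw [toSL2R_smul_I]
    rwa [h2] at h1
  have hexp : ∀ z : ℍ, Real.exp (G' z) ≤ eb := fun z =>
    Real.exp_le_exp.2 ((le_abs_self _).trans (hG0 z))
  have hexp' : ∀ z : ℍ, 1 ≤ Real.exp (G' z) * eb := by
    intro z
    rw [heb, ← Real.exp_add]
    refine Real.one_le_exp ?_
    have := (abs_le.1 (hG0 z)).1
    linarith
  have hball : ∀ v : ℂ, ‖v‖ ≤ 1 → v ∈ Metric.ball (0 : ℂ) 2 := fun v hv => by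
    simp only [Metric.mem_ball, dist_zero_right]
    linarith
  have hbd : ∀ (g : SL(2, ℝ)) (v : ℂ), ‖v‖ ≤ 1 → ∀ n, ‖iteratedFDeriv ℝ n (Ug (fun z => Real.exp (G' z)) g) v‖ ≤ B n := by
    intro g v hv n
    refine POT_comp (g := Real.exp) (f := fun w => G' (g • cdi w)) Metric.isOpen_ball isOpen_univ Real.contDiff_exp.contDiffOn (POT_cd G' hG' g) (mapsTo_univ _ _) (hball v hv) (fun i _ => ?_) fun i hi hi' => (hKn g v hv i).trans ?_
    · rw [POT_exp]
      exact hexp (g • cdi v)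
    · have h4 : A i ≤ ∑ i ∈ Finset.range (n + 1), A i :=
        Finset.single_le_sum (f := fun i => A i) (fun j _ => hA0 j) (Finset.mem_range.2 (by omega))
      have h5 : 1 ≤ 1 + ∑ i ∈ Finset.range (n + 1), A i := by
        have := hA0 i
        linarith
      calc A i ≤ 1 + ∑ i ∈ Finset.range (n + 1), A i := by linarith
        _ ≤ (1 + ∑ i ∈ Finset.range (n + 1), A i) ^ i := le_self_pow₀ h5 (by omega)
  refine ⟨⟨hk, ?_⟩, ContDiffOn.exp hG', ?_, ?_, ?_, hbd, ?_⟩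
  · rw [div_le_div_iff₀ (by positivity) (by norm_num)]
    linarith
  · exact ⟨Real.continuous_exp.comp hi'.1, fun γ z => by
      show Real.exp (G' (γ • z)) = Real.exp (G' z)
      rw [hi'.2]⟩
  · intro z
    show 8 * (1 / (16 * (q : ℝ))) ≤ Real.exp (G' z)
    have e1 : 8 * (1 / (16 * (q : ℝ))) = 1 / (2 * q) := by
      field_simp
      norm_num
    have e2 : Real.exp (G' z) * eb ≤ Real.exp (G' z) * q :=
      mul_le_mul_of_nonneg_left (by linarith) (Real.exp_pos _).le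
    have e3 := hexp' z
    rw [e1, div_le_iff₀ (by positivity)]
    have e4 : 0 ≤ Real.exp (G' z) * q := by positivity
    linarith
  · intro g v hv n hn
    refine (hbd g v hv n).trans ?_
    have e1 : 1 / (1 / (16 * (q : ℝ))) = 16 * q := by
      rw [one_div_one_div]
    have a0 := le_abs_self (B 0)
    have a1 := le_abs_self (B 1)
    have a2 := le_abs_self (B 2)
    have a3 := le_abs_self (B 3)
    have c0 := abs_nonneg (B 0)
    have c1 := abs_nonneg (B 1)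
    have c2 := abs_nonneg (B 2)
    have c3 := abs_nonneg (B 3)
    rw [e1]
    interval_cases n <;> linarith
  · intro E g hE
    set U : ℍ → ℝ := fun z => Real.exp (G' z) with hU
    set V : ℂ → ℝ := Ug G' g with hV
    have hV0 : V 0 = G' (g • I) := by
      show G' (g • cdi 0) = G' (g • I)
      rw [PON_cdi0]
    have cV : ContDiffAt ℝ 2 V 0 := (PON_V hG' g).of_le (WithTop.coe_le_coe.2 le_top)
    have hUg : Ug U g = fun w => Real.exp (V w) := rfl
    have d1 : n1 U g = Real.exp (G' (g • I)) * fderiv ℝ V 0 1 := by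
      show fderiv ℝ (Ug U g) 0 1 = _
      rw [hUg, (PON_exp cV 1 1).1, hV0]
    have d2 : n2 U g = Real.exp (G' (g • I)) * fderiv ℝ V 0 Complex.I := by
      show fderiv ℝ (Ug U g) 0 Complex.I = _
      rw [hUg, (PON_exp cV Complex.I 1).1, hV0]
    have d3 : hess U g 0 0 = Real.exp (G' (g • I)) *
        (fderiv ℝ (fderiv ℝ V) 0 1 1 + fderiv ℝ V 0 1 * fderiv ℝ V 0 1) := by
      have e0 : VQ.eb 0 = 1 := rfl
      show fderiv ℝ (fderiv ℝ (Ug U g)) 0 (VQ.eb 0) (VQ.eb 0) = _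
      rw [e0, hUg, (PON_exp cV 1 1).2, hV0]
    have d4 : hess U g 1 1 = Real.exp (G' (g • I)) *
        (fderiv ℝ (fderiv ℝ V) 0 Complex.I Complex.I +
          fderiv ℝ V 0 Complex.I * fderiv ℝ V 0 Complex.I) := by
      have e0 : VQ.eb 1 = Complex.I := by
        unfold VQ.eb
        rw [if_neg (by norm_num)]
      show fderiv ℝ (fderiv ℝ (Ug U g)) 0 (VQ.eb 1) (VQ.eb 1) = _
      rw [e0, hUg, (PON_exp cV Complex.I Complex.I).2, hV0]
    have k1 : ∀ a : ℂ, ‖a‖ = 1 → |fderiv ℝ V 0 a| ≤ A 1 := by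
      intro a ha
      have e1 := hKn g 0 (by simp) 1
      have e2 : ‖iteratedFDeriv ℝ 1 V 0‖ ≤ A 1 := e1
      rw [norm_iteratedFDeriv_one] at e2
      have e3 := (fderiv ℝ V 0).le_opNorm a
      rw [ha, mul_one, Real.norm_eq_abs] at e3
      exact e3.trans e2
    have k2 : ∀ a : ℂ, ‖a‖ = 1 → |fderiv ℝ (fderiv ℝ V) 0 a a| ≤ A 2 := by
      intro a ha
      have e2 : ‖iteratedFDeriv ℝ 2 V 0‖ ≤ A 2 := hKn g 0 (by simp) 2
      have h2 := iteratedFDeriv_two_apply (𝕜 := ℝ) V 0 (fun _ => a)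
      have h3 := (iteratedFDeriv ℝ 2 V 0).le_opNorm (fun _ => a)
      rw [h2] at h3
      have h4 : ∏ _i : Fin 2, ‖a‖ = 1 := by
        rw [ha]
        simp
      rw [h4, mul_one, Real.norm_eq_abs] at h3
      exact h3.trans e2
    have hlap := PON_lap hG' g
    have hlap' := PON_sub hG hG' (hs 2 le_rfl) (g • I)
    have hlap'' := hlc (g • I)
    rw [hlap] at hlap'
    set V1 : ℝ := fderiv ℝ V 0 1 with hV1
    set V2 : ℝ := fderiv ℝ V 0 Complex.I with hV2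
    set V11 : ℝ := fderiv ℝ (fderiv ℝ V) 0 1 1 with hV11
    set V22 : ℝ := fderiv ℝ (fderiv ℝ V) 0 Complex.I Complex.I with hV22
    have m1 : V1 ^ 2 ≤ A 1 ^ 2 := by
      rw [← sq_abs V1]
      exact pow_le_pow_left₀ (abs_nonneg _) (k1 1 (by simp)) 2
    have m2 : V2 ^ 2 ≤ A 1 ^ 2 := by
      rw [← sq_abs V2]
      exact pow_le_pow_left₀ (abs_nonneg _) (k1 Complex.I (by simp)) 2
    have m3 : |V11 + V22| ≤ L0 := by
      have e1 := k2 1 (by simp)
      have e2 := k2 Complex.I (by simp)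
      have e3 := abs_add_le V11 V22
      rw [hL0]
      linarith
    have n1' : 4 * (1 / (16 * (q : ℝ))) * eb ≤ 1 := by
      rw [hk4, one_div, inv_mul_le_iff₀ (by positivity)]
      linarith
    have n2' : 4 * (1 / (16 * (q : ℝ))) * eb ≤ c := by
      rw [hk4, one_div, inv_mul_le_iff₀ (by positivity)]
      have e1 : eb ≤ q * c := by
        rw [← div_le_iff₀ hc]
        linarith
      have e2 : 0 ≤ (q : ℝ) * c := by positivity
      linarith
    have n3' : 4 * (1 / (16 * (q : ℝ))) * eb * (L0 + 2 * N0 + 1) ≤ c := by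
      rw [hk4, one_div, mul_assoc, inv_mul_le_iff₀ (by positivity)]
      have e1 : eb * (L0 + 2 * N0 + 1) ≤ q * c := by
        rw [← div_le_iff₀ hc]
        linarith
      have e2 : 0 ≤ (q : ℝ) * c := by positivity
      linarith
    obtain ⟨r0, hnum⟩ := PON_num (u := Real.exp (G' (g • I))) (E := E) (L := V11 + V22)
      (N := V1 ^ 2 + V2 ^ 2) (c := c) (eb := eb) (k := 1 / (16 * (q : ℝ))) (L0 := L0) (N0 := N0)
      (Real.exp_pos _) (hexp _) (hexp' _) (by linarith) m3 (by positivity)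
      (by rw [hN0]; linarith) hk hE n1' n2' n3'
    have hρ2 : rho U E g ^ 2 = Real.exp (G' (g • I)) + 2 * E := Real.sq_sqrt r0
    have hρ4 : rho U E g ^ 4 = (Real.exp (G' (g • I)) + 2 * E) ^ 2 := by
      rw [← hρ2]
      ring
    unfold Kg
    rw [hρ2, hρ4, d1, d2, d3, d4]
    refine le_of_eq_of_le ?_ hnum
    congr 2
    ring

end

end Pool.Agent.VN
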